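import Mathlib

/-!
# MP_6bd6f6: a non-minimal M-system which is not Li-Yorke sensitive

The system is the orbit closure of `(w, 0)` in `{0,1}^ℕ × ℤ_2` under shift times translation
by `1`, where `w` is an explicit sequence: `w 0 = 1` and `w (2 ^ k + a) = P (e k) a` for `a < 2 ^ k`,
`P m` being the periodic sequence with period block `0 ^ (2 ^ (m - 1)) w[0, 2 ^ (m - 1))`.
-/

set_option autoImplicit false
open Filter Topology

namespace Pool.Agent.Results.MP_6bd6f6_an.Odometer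

/-! ## The notions of the problem -/

section notions
variable {X : Type} [MetricSpace X]

/-- `T` is transitive. -/
def IsTransitive (T : X → X) : Prop :=
  ∀ U V : Set X, IsOpen U → U.Nonempty → IsOpen V → V.Nonempty →
    ∃ n : ℕ, (U ∩ (T^[n]) ⁻¹' V).Nonempty

/-- `M` is a minimal set of `T`. -/
def IsMinimalSet (T : X → X) (M : Set X) : Prop :=
  (M.Nonempty ∧ IsClosed M ∧ Set.MapsTo T M M) ∧
    ∀ N : Set X, N ⊆ M → N.Nonempty → IsClosed N → Set.MapsTo T N N → N = M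

/-- `x` is a minimal point. -/
def IsMinimalPoint (T : X → X) (x : X) : Prop := ∃ M : Set X, IsMinimalSet T M ∧ x ∈ M

/-- M-systems. -/
def IsMSystem (T : X → X) : Prop := IsTransitive T ∧ Dense {x : X | IsMinimalPoint T x}

/-- Li-Yorke sensitivity. -/
def LiYorkeSensitive (T : X → X) : Prop :=
  ∃ δ : ℝ, 0 < δ ∧ ∀ x : X, ∀ U ∈ 𝓝 x, ∃ y ∈ U,
    liminf (fun n : ℕ => dist (T^[n] x) (T^[n] y)) atTop = 0 ∧
    δ < limsup (fun n : ℕ => dist (T^[n] x) (T^[n] y)) atTop

end notions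

/-! ## The sequence -/

/-- each value is attained infinitely often and `e k ≤ k` -/
def e (k : ℕ) : ℕ := (Nat.unpair k).1

lemma e_le (k : ℕ) : e k ≤ k := Nat.unpair_left_le k

lemma e_inf (m N : ℕ) : ∃ k, N ≤ k ∧ e k = m :=
  ⟨Nat.pair m N, Nat.right_le_pair m N, by simp [e]⟩

/-- the sequence `w` -/
def w (n : ℕ) : Bool :=
  if h : n = 0 then true else
    if e (Nat.log 2 n) = 0 then false else
      (decide (2 ^ (e (Nat.log 2 n) - 1) ≤ (n - 2 ^ (Nat.log 2 n)) % 2 ^ (e (Nat.log 2 n)))) &&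
        w ((n - 2 ^ (Nat.log 2 n)) % 2 ^ (e (Nat.log 2 n) - 1))
  termination_by n
  decreasing_by
    have h1 : 0 < 2 ^ (Nat.log 2 n) := by positivity
    have h2 := Nat.mod_le (n - 2 ^ (Nat.log 2 n)) (2 ^ (e (Nat.log 2 n) - 1))
    omega

/-- the periodic sequences -/
def P : ℕ → ℕ → Bool
  | 0, _ => false
  | (m + 1), a => (decide (2 ^ m ≤ a % 2 ^ (m + 1))) && w (a % 2 ^ m)

lemma w_zero : w 0 = true := by
  rw [w]; simp

lemma w_pow_add (k a : ℕ) (h : a < 2 ^ k) : w (2 ^ k + a) = P (e k) a := by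
  have h1 : 0 < 2 ^ k := by positivity
  have hlog : Nat.log 2 (2 ^ k + a) = k := by
    apply Nat.log_eq_of_pow_le_of_lt_pow
    · omega
    · rw [pow_succ]; omega
  rw [w, dif_neg (by omega), hlog]
  rcases hm : e k with _ | m
  · simp [P]
  · simp [P]

lemma P_congr (m : ℕ) {a b : ℕ} (h : a % 2 ^ m = b % 2 ^ m) : P m a = P m b := by
  rcases m with _ | m
  · rfl
  · have h' : a % 2 ^ m = b % 2 ^ m := by
      have hd : 2 ^ m ∣ 2 ^ (m + 1) := pow_dvd_pow 2 (Nat.le_succ m)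
      rw [← Nat.mod_mod_of_dvd a hd, h, Nat.mod_mod_of_dvd b hd]
    simp only [P, h, h']

lemma P_succ_pow_add (m i : ℕ) (h : i < 2 ^ m) : P (m + 1) (2 ^ m + i) = w i := by
  have h1 : (2 ^ m + i) % 2 ^ (m + 1) = 2 ^ m + i := Nat.mod_eq_of_lt (by rw [pow_succ]; omega)
  have h2 : (2 ^ m + i) % 2 ^ m = i := by rw [Nat.add_mod_left]; exact Nat.mod_eq_of_lt h
  simp only [P, h1, h2]
  simp

lemma add_lt_of_dvd {j k a i : ℕ} (hjk : j ≤ k) (ha : a < 2 ^ k) (hd : 2 ^ j ∣ a) (hi : i < 2 ^ j) :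
    a + i < 2 ^ k := by
  obtain ⟨c, rfl⟩ := hd
  obtain ⟨l, rfl⟩ := Nat.exists_eq_add_of_le hjk
  rw [pow_add] at ha ⊢
  have hc : c < 2 ^ l := lt_of_mul_lt_mul_left ha (Nat.zero_le _)
  calc 2 ^ j * c + i < 2 ^ j * c + 2 ^ j := by omega
    _ = 2 ^ j * (c + 1) := by ring
    _ ≤ 2 ^ j * 2 ^ l := Nat.mul_le_mul_left _ hc

/-- A `1` at a position divisible by `2 ^ j` starts a copy of `w[0, 2 ^ j)`. -/
lemma isolation (n : ℕ) : ∀ j, 2 ^ j ∣ n → w n = true → ∀ i < 2 ^ j, w (n + i) = w i := by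
  induction n using Nat.strong_induction_on with
  | _ n ih =>
    intro j hj hn i hi
    rcases Nat.eq_zero_or_pos n with h0 | h0
    · subst h0; simp
    · obtain ⟨k, a, ha, rfl⟩ : ∃ k a, a < 2 ^ k ∧ n = 2 ^ k + a := by
        refine ⟨Nat.log 2 n, n - 2 ^ (Nat.log 2 n), ?_, ?_⟩
        · have := Nat.lt_pow_succ_log_self (b := 2) (by norm_num) n
          have h2 := Nat.pow_log_le_self 2 (x := n) (by omega)
          rw [pow_succ] at this
          omega
        · have h2 := Nat.pow_log_le_self 2 (x := n) (by omega)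
          omega
      have hjk : j ≤ k := by
        have h1 : 2 ^ j ≤ 2 ^ k + a := Nat.le_of_dvd h0 hj
        have h2 : 2 ^ j < 2 ^ (k + 1) := by rw [pow_succ]; omega
        have := (Nat.pow_lt_pow_iff_right (by norm_num : 1 < 2)).1 h2
        omega
      have hja : 2 ^ j ∣ a := (Nat.dvd_add_right (pow_dvd_pow 2 hjk)).1 hj
      have hai : a + i < 2 ^ k := add_lt_of_dvd hjk ha hja hi
      rw [w_pow_add k a ha] at hn
      rw [add_assoc, w_pow_add k (a + i) hai]
      rcases hm : e k with _ | m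
      · rw [hm] at hn; simp [P] at hn
      · rw [hm] at hn
        simp only [P, Bool.and_eq_true, decide_eq_true_eq] at hn
        obtain ⟨hr, hs⟩ := hn
        have hjm : j ≤ m := by
          by_contra hcon
          have h1 : 2 ^ (m + 1) ∣ a := (pow_dvd_pow 2 (by omega : m + 1 ≤ j)).trans hja
          have h2 : a % 2 ^ (m + 1) = 0 := Nat.mod_eq_zero_of_dvd h1
          have h3 : 0 < 2 ^ m := by positivity
          omega
        set s := a % 2 ^ m with hsdef
        have hs_lt : s < 2 ^ m := Nat.mod_lt _ (by positivity)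
        have hjs : 2 ^ j ∣ s := (Nat.dvd_mod_iff (pow_dvd_pow 2 hjm)).2 hja
        have hsi : s + i < 2 ^ m := add_lt_of_dvd hjm hs_lt hjs hi
        have hr' : a % 2 ^ (m + 1) = 2 ^ m + s := by
          have hlt : a % 2 ^ (m + 1) < 2 ^ (m + 1) := Nat.mod_lt _ (by positivity)
          have h1 : a % 2 ^ (m + 1) % 2 ^ m = s :=
            Nat.mod_mod_of_dvd a (pow_dvd_pow 2 (Nat.le_succ m))
          have h2 : a % 2 ^ (m + 1) = 2 ^ m + (a % 2 ^ (m + 1) - 2 ^ m) := by omega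
          rw [h2, Nat.add_mod_left, Nat.mod_eq_of_lt (by rw [pow_succ] at hlt; omega)] at h1
          omega
        have h1 : (a + i) % 2 ^ (m + 1) = 2 ^ m + (s + i) := by
          rw [Nat.add_mod, hr']
          have : i % 2 ^ (m + 1) = i := Nat.mod_eq_of_lt
            (lt_of_lt_of_le hi (Nat.pow_le_pow_right (by norm_num) (by omega)))
          rw [this, add_assoc]
          exact Nat.mod_eq_of_lt (by rw [pow_succ]; omega)
        have h2 : (a + i) % 2 ^ m = s + i := by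
          rw [Nat.add_mod, ← hsdef]
          have : i % 2 ^ m = i := Nat.mod_eq_of_lt
            (lt_of_lt_of_le hi (Nat.pow_le_pow_right (by norm_num) hjm))
          rw [this]
          exact Nat.mod_eq_of_lt hsi
        simp only [P, h1, h2]
        have hlt : s < 2 ^ k + a := by
          have : s ≤ a := Nat.mod_le _ _
          have h3 : 0 < 2 ^ k := by positivity
          omega
        simp [ih s hlt j hjs hs i hi]

/-! ## The space -/

/-- one-sided binary sequences -/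
def Y : Type := ℕ → Bool

noncomputable instance : MetricSpace Y := PiNat.metricSpace (E := fun _ => Bool)

instance : CompactSpace Y := inferInstanceAs (CompactSpace (ℕ → Bool))

lemma dist_le_iff (x y : Y) (m : ℕ) : dist x y ≤ (1 / 2) ^ m ↔ ∀ i < m, x i = y i := by
  have := PiNat.mem_cylinder_iff_dist_le (E := fun _ => Bool) (x := y) (y := x) (n := m)
  exact this.symm.trans PiNat.mem_cylinder_iff

lemma continuous_eval (i : ℕ) : Continuous (fun x : Y => x i) := continuous_apply (A := fun _ : ℕ => Bool) i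

/-- the ambient space -/
abbrev E : Type := Y × ℤ_[2]

/-- the shift by `n` -/
def sh (n : ℕ) (a : Y) : Y := fun i => a (n + i)

/-- shift times odometer -/
noncomputable def S (p : E) : E := (sh 1 p.1, p.2 + 1)

lemma S_iter (n : ℕ) (p : E) : S^[n] p = (sh n p.1, p.2 + n) := by
  induction n with
  | zero =>
    refine Prod.ext ?_ (by simp)
    funext i; simp [sh]
  | succ n ih =>
    rw [Function.iterate_succ_apply', ih]
    refine Prod.ext ?_ ?_
    · funext i
      show p.1 (n + (1 + i)) = p.1 (n + 1 + i)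
      rw [add_assoc]
    · simp only [S]; push_cast; ring

lemma continuous_S : Continuous S := by
  have h1 : Continuous (fun a : Y => sh 1 a) :=
    continuous_pi (X := ℕ → Bool) (A := fun _ : ℕ => Bool) (fun i => continuous_apply (A := fun _ : ℕ => Bool) (1 + i))
  exact (h1.comp continuous_fst).prodMk (continuous_snd.add continuous_const)

/-- two points are close -/
lemma dist_E_le {p q : E} {m : ℕ} (h1 : ∀ i < m, p.1 i = q.1 i)
    (h2 : ‖p.2 - q.2‖ ≤ (1 / 2 : ℝ) ^ m) : dist p q ≤ (1 / 2 : ℝ) ^ m := by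
  rw [Prod.dist_eq]
  refine max_le ((dist_le_iff _ _ _).2 h1) ?_
  rw [dist_eq_norm]; exact h2

lemma norm_le_iff (k : ℤ) (m : ℕ) : ‖(k : ℤ_[2])‖ ≤ (1 / 2 : ℝ) ^ m ↔ (2 ^ m : ℤ) ∣ k := by
  have h := PadicInt.norm_int_le_pow_iff_dvd (p := 2) (k := k) (n := m)
  have h2 : ((2 : ℕ) : ℝ) ^ (-(m : ℤ)) = (1 / 2 : ℝ) ^ m := by
    rw [zpow_neg, zpow_natCast]; simp
  rw [h2] at h
  exact_mod_cast h

lemma mod_eq_of_norm {n i m : ℕ} (h : ‖((n : ℤ_[2]) - (i : ℤ_[2]))‖ ≤ (1 / 2 : ℝ) ^ m) :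
    n % 2 ^ m = i % 2 ^ m := by
  have h1 : ((2 : ℤ) ^ m) ∣ ((n : ℤ) - (i : ℤ)) := by
    rw [← norm_le_iff]; push_cast; exact h
  have h2 : (i : ℤ) ≡ (n : ℤ) [ZMOD ((2 ^ m : ℕ) : ℤ)] := by
    rw [Int.modEq_iff_dvd]; exact_mod_cast h1
  exact ((Int.natCast_modEq_iff.1 h2).symm)

lemma norm_of_mod {n i m : ℕ} (h : n % 2 ^ m = i % 2 ^ m) :
    ‖((n : ℤ_[2]) - (i : ℤ_[2]))‖ ≤ (1 / 2 : ℝ) ^ m := by
  have h1 : (i : ℤ) ≡ (n : ℤ) [ZMOD ((2 ^ m : ℕ) : ℤ)] := by
    rw [Int.natCast_modEq_iff]; exact h.symm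
  have h2 := (norm_le_iff ((n : ℤ) - (i : ℤ)) m).2 (by
    have := h1.dvd
    exact_mod_cast this)
  push_cast at h2; exact h2

/-- `w` as a point of `Y` -/
def wY : Y := w

/-- `P m` as a point of `Y` -/
def PY (m : ℕ) : Y := P m

/-- the base point -/
noncomputable def p₀ : E := (wY, 0)

/-- the orbit closure -/
def K : Set E := closure (Set.range fun n : ℕ => S^[n] p₀)

/-- the space -/
abbrev X : Type := K

lemma mapsTo_K : Set.MapsTo S K K := by
  intro x hx
  have h : S '' closure (Set.range fun n : ℕ => S^[n] p₀) ⊆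
      closure (S '' (Set.range fun n : ℕ => S^[n] p₀)) :=
    image_closure_subset_closure_image continuous_S
  refine closure_mono ?_ (h ⟨x, hx, rfl⟩)
  rintro _ ⟨_, ⟨n, rfl⟩, rfl⟩
  exact ⟨n + 1, Function.iterate_succ_apply' S n p₀⟩

instance : CompactSpace X := isCompact_iff_compactSpace.1 (isClosed_closure.isCompact)

/-- the map -/
noncomputable def T : X → X := mapsTo_K.restrict S K K

lemma T_val (x : X) : (T x : E) = S x := rfl

lemma continuous_T : Continuous T :=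
  (continuous_S.comp continuous_subtype_val).subtype_mk _

lemma T_iter (n : ℕ) (x : X) : ((T^[n] x : X) : E) = (sh n x.1.1, x.1.2 + n) := by
  rw [← S_iter]
  induction n with
  | zero => rfl
  | succ n ih => rw [Function.iterate_succ_apply', Function.iterate_succ_apply', T_val, ih]

/-- the transitive point -/
noncomputable def x₀ : X := ⟨p₀, subset_closure ⟨0, rfl⟩⟩

/-- The orbit of `x₀` is dense. -/
lemma dense_orbit (U : Set X) (hU : IsOpen U) (hne : U.Nonempty) : ∃ n : ℕ, T^[n] x₀ ∈ U := by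
  obtain ⟨x, hx⟩ := hne
  obtain ⟨V, hV, rfl⟩ := isOpen_induced_iff.1 hU
  have hx' : (x : E) ∈ V := hx
  obtain ⟨y, hy, n, rfl⟩ := mem_closure_iff.1 x.2 V hV hx'
  refine ⟨n, ?_⟩
  show ((T^[n] x₀ : X) : E) ∈ V
  rw [T_iter]
  simp only at hy
  rw [S_iter] at hy
  exact hy

lemma pow_half_small {ε : ℝ} (hε : 0 < ε) : ∃ m : ℕ, ∀ j ≥ m, (1 / 2 : ℝ) ^ j < ε := by
  obtain ⟨m, hm⟩ := exists_pow_lt_of_lt_one hε (by norm_num : (1 / 2 : ℝ) < 1)
  exact ⟨m, fun j hj => lt_of_le_of_lt (pow_le_pow_of_le_one (by norm_num) (by norm_num) hj) hm⟩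

/-- A point `(P m, 0)` lies in `K`. -/
lemma mem_K (m : ℕ) : ((PY m, (0 : ℤ_[2])) : E) ∈ K := by
  refine Metric.mem_closure_iff.2 ?_
  intro ε hε
  obtain ⟨M, hM⟩ := pow_half_small hε
  obtain ⟨k, hk, hek⟩ := e_inf m M
  refine ⟨_, ⟨2 ^ k, rfl⟩, lt_of_le_of_lt ?_ (hM k hk)⟩
  simp only
  rw [S_iter]
  apply dist_E_le
  · intro i hi
    have hi2 : i < 2 ^ k := hi.trans Nat.lt_two_pow_self
    show P m i = w (2 ^ k + i)
    rw [w_pow_add k i hi2, hek]
  · have := norm_of_mod (n := 0) (i := 2 ^ k) (m := k) (by simp)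
    simpa [p₀] using this

/-- the periodic points -/
noncomputable def q (m : ℕ) : X := ⟨_, mem_K m⟩

lemma q_val (m : ℕ) : ((q m : X) : E) = (PY m, 0) := rfl

/-- the set of points which follow `P m` -/
def F (m : ℕ) : Set X :=
  {x : X | ∀ i : ℕ, ‖x.1.2 - (i : ℤ_[2])‖ ≤ (1 / 2 : ℝ) ^ m → x.1.1 = sh i (PY m)}

lemma isClosed_F (m : ℕ) : IsClosed (F m) := by
  have : F m = ⋂ i : ℕ, ({x : X | ‖x.1.2 - (i : ℤ_[2])‖ ≤ (1 / 2 : ℝ) ^ m}ᶜ ∪
      {x : X | x.1.1 = sh i (PY m)}) := by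
    ext x
    rw [Set.mem_iInter]
    exact forall_congr' fun i => imp_iff_not_or
  rw [this]
  refine isClosed_iInter fun i => IsClosed.union ?_ ?_
  · rw [isClosed_compl_iff]
    have h1 : {x : X | ‖x.1.2 - (i : ℤ_[2])‖ ≤ (1 / 2 : ℝ) ^ m} =
        (fun x : X => x.1.2) ⁻¹' (Metric.closedBall (i : ℤ_[2]) ((1 / 2 : ℝ) ^ m)) := by
      ext x
      show _ ↔ dist _ _ ≤ _
      rw [dist_eq_norm]; rfl
    rw [h1]
    exact (IsUltrametricDist.isOpen_closedBall _ (by positivity)).preimage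
      (continuous_snd.comp continuous_subtype_val)
  · exact isClosed_eq (continuous_fst.comp continuous_subtype_val) continuous_const

lemma orbit_mem_F (m n : ℕ) : T^[n] (q m) ∈ F m := by
  intro i hi
  rw [T_iter, q_val] at hi ⊢
  simp only [zero_add] at hi ⊢
  have h := mod_eq_of_norm hi
  funext l
  exact P_congr m (Nat.ModEq.add_right l h)

/-- the orbit closure of `q m` -/
def Mm (m : ℕ) : Set X := closure (Set.range fun n : ℕ => T^[n] (q m))

lemma Mm_subset_F (m : ℕ) : Mm m ⊆ F m :=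
  closure_minimal (by rintro _ ⟨n, rfl⟩; exact orbit_mem_F m n) (isClosed_F m)

lemma mapsTo_Mm (m : ℕ) : Set.MapsTo T (Mm m) (Mm m) := by
  intro x hx
  have h : T '' closure (Set.range fun n : ℕ => T^[n] (q m)) ⊆
      closure (T '' (Set.range fun n : ℕ => T^[n] (q m))) :=
    image_closure_subset_closure_image continuous_T
  refine closure_mono ?_ (h ⟨x, hx, rfl⟩)
  rintro _ ⟨_, ⟨n, rfl⟩, rfl⟩
  exact ⟨n + 1, Function.iterate_succ_apply' T n (q m)⟩

lemma iter_mem {N : Set X} (hN : Set.MapsTo T N N) {x : X} (hx : x ∈ N) (n : ℕ) :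
    T^[n] x ∈ N := by
  induction n with
  | zero => exact hx
  | succ n ih => rw [Function.iterate_succ_apply']; exact hN ih

/-- every point of `F m` comes back to `q m` -/
lemma back (m : ℕ) (x : X) (hx : x ∈ F m) (N : Set X) (hN : IsClosed N) (hT : Set.MapsTo T N N)
    (hxN : x ∈ N) : q m ∈ N := by
  rw [← hN.closure_eq, Metric.mem_closure_iff]
  intro ε hε
  obtain ⟨M, hM⟩ := pow_half_small hε
  set j := max M m with hj
  have hpos : (0 : ℝ) < (1 / 2) ^ j := by positivity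
  obtain ⟨n, hn⟩ := (PadicInt.denseRange_natCast (p := 2)).exists_dist_lt (-x.1.2) hpos
  rw [dist_eq_norm] at hn
  have hn' : ‖x.1.2 + (n : ℤ_[2])‖ ≤ (1 / 2 : ℝ) ^ j := by
    rw [← norm_neg, neg_add]
    simpa [sub_eq_add_neg] using hn.le
  -- a natural number `i` close to `x.1.2`
  obtain ⟨i, hi⟩ := (PadicInt.denseRange_natCast (p := 2)).exists_dist_lt (x.1.2) hpos
  rw [dist_eq_norm] at hi
  have hjm : (1 / 2 : ℝ) ^ j ≤ (1 / 2 : ℝ) ^ m :=
    pow_le_pow_of_le_one (by norm_num) (by norm_num) (le_max_right _ _)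
  have hxi := hx i (hi.le.trans hjm)
  have hin : (i + n) % 2 ^ m = 0 % 2 ^ m := by
    apply mod_eq_of_norm
    have h1 : ((i + n : ℕ) : ℤ_[2]) - ((0 : ℕ) : ℤ_[2]) =
        (x.1.2 + (n : ℤ_[2])) + -(x.1.2 - (i : ℤ_[2])) := by push_cast; ring
    rw [h1]
    refine (PadicInt.nonarchimedean _ _).trans ?_
    rw [norm_neg]
    exact max_le (hn'.trans hjm) (hi.le.trans hjm)
  refine ⟨T^[n] x, iter_mem hT hxN n, lt_of_le_of_lt ?_ (hM j (le_max_left _ _))⟩
  show dist ((q m : X) : E) ((T^[n] x : X) : E) ≤ _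
  rw [T_iter, q_val]
  apply dist_E_le
  · intro l _
    show P m l = x.1.1 (n + l)
    rw [hxi]
    show P m l = P m (i + (n + l))
    apply P_congr
    rw [← add_assoc]
    have := Nat.ModEq.add_right l hin
    rw [zero_add] at this
    exact this.symm
  · show ‖(0 : ℤ_[2]) - (x.1.2 + (n : ℤ_[2]))‖ ≤ _
    rw [zero_sub, norm_neg]
    exact hn'

lemma minimal_Mm (m : ℕ) : IsMinimalSet T (Mm m) := by
  refine ⟨⟨⟨q m, subset_closure ⟨0, rfl⟩⟩, isClosed_closure, mapsTo_Mm m⟩, ?_⟩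
  intro N hNM hne hcl hT
  obtain ⟨x, hx⟩ := hne
  have hq : q m ∈ N := back m x (Mm_subset_F m (hNM hx)) N hcl hT hx
  refine Set.Subset.antisymm hNM (closure_minimal ?_ hcl)
  rintro _ ⟨n, rfl⟩
  exact iter_mem hT hq n

/-- `x₀` is a limit of minimal points. -/
lemma x₀_limit : x₀ ∈ closure {x : X | IsMinimalPoint T x} := by
  rw [Metric.mem_closure_iff]
  intro ε hε
  obtain ⟨M, hM⟩ := pow_half_small hε
  refine ⟨T^[2 ^ M] (q (M + 1)), ⟨Mm (M + 1), minimal_Mm _, subset_closure ⟨2 ^ M, rfl⟩⟩,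
    lt_of_le_of_lt ?_ (hM M le_rfl)⟩
  show dist (p₀ : E) ((T^[2 ^ M] (q (M + 1)) : X) : E) ≤ _
  rw [T_iter, q_val]
  apply dist_E_le
  · intro i hi
    show w i = P (M + 1) (2 ^ M + i)
    rw [P_succ_pow_add M i (hi.trans Nat.lt_two_pow_self)]
  · have := norm_of_mod (n := 0) (i := 2 ^ M) (m := M) (by simp)
    simpa [p₀] using this

/-- `x₀` is recurrent. -/
lemma recurrent (U : Set X) (hU : IsOpen U) (hx : x₀ ∈ U) (N : ℕ) : ∃ n ≥ N, T^[n] x₀ ∈ U := by
  obtain ⟨ε, hε, hball⟩ := Metric.isOpen_iff.1 hU x₀ hx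
  obtain ⟨M, hM⟩ := pow_half_small hε
  -- `w` contains `P (M + 1)` at `2 ^ k`, which contains `w` at `2 ^ M`
  obtain ⟨k, hk, hek⟩ := e_inf (M + 1) (N + M + 1)
  have hlt : 2 ^ M + 2 ^ M ≤ 2 ^ k := by
    rw [← two_mul, ← pow_succ']
    exact Nat.pow_le_pow_right (by norm_num) (by omega)
  refine ⟨2 ^ k + 2 ^ M, ?_, hball ?_⟩
  · have : k < 2 ^ k := Nat.lt_two_pow_self
    have h0 : 0 < 2 ^ M := by positivity
    omega
  · rw [Metric.mem_ball, dist_comm]
    refine lt_of_le_of_lt ?_ (hM M le_rfl)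
    show dist (p₀ : E) ((T^[2 ^ k + 2 ^ M] x₀ : X) : E) ≤ _
    rw [T_iter]
    apply dist_E_le
    · intro i hi
      have hi2 : i < 2 ^ M := hi.trans Nat.lt_two_pow_self
      show w i = w (2 ^ k + 2 ^ M + i)
      rw [add_assoc, w_pow_add k (2 ^ M + i) (by omega), hek, P_succ_pow_add M i hi2]
    · have hd : 2 ^ M ∣ 2 ^ k + 2 ^ M := by
        refine (Nat.dvd_add_left dvd_rfl).2 (pow_dvd_pow 2 (by omega))
      have := norm_of_mod (n := 0) (i := 2 ^ k + 2 ^ M) (m := M)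
        (by rw [Nat.mod_eq_zero_of_dvd hd]; simp)
      simpa [p₀, x₀] using this

lemma injective_orbit {m n : ℕ} (h : T^[m] x₀ = T^[n] x₀) : m = n := by
  have h1 : ((T^[m] x₀ : X) : E).2 = ((T^[n] x₀ : X) : E).2 := by rw [h]
  rw [T_iter, T_iter] at h1
  simp only [x₀, p₀, zero_add] at h1
  exact_mod_cast h1

/-- two visits, arbitrarily late -/
lemma visits (U : Set X) (hU : IsOpen U) (hne : U.Nonempty) (N : ℕ) : ∃ n ≥ N, T^[n] x₀ ∈ U := by
  obtain ⟨m, hm⟩ := dense_orbit U hU hne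
  have hcont : Continuous (T^[m]) := continuous_T.iterate m
  obtain ⟨n, hn, hmem⟩ := recurrent ((T^[m]) ⁻¹' U) (hU.preimage hcont) hm N
  refine ⟨m + n, by omega, ?_⟩
  rw [Function.iterate_add_apply]
  exact hmem

lemma isTransitive_T : IsTransitive T := by
  intro U V hU hUne hV hVne
  obtain ⟨n, hn⟩ := dense_orbit U hU hUne
  obtain ⟨m, hm, hmem⟩ := visits V hV hVne n
  refine ⟨m - n, T^[n] x₀, hn, ?_⟩
  show T^[m - n] (T^[n] x₀) ∈ V
  rw [← Function.iterate_add_apply]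
  have : m - n + n = m := by omega
  rwa [this]

lemma surjective_T : Function.Surjective T := by
  have hcl : IsClosed (Set.range T) := (isCompact_range continuous_T).isClosed
  have hx0 : x₀ ∈ Set.range T := by
    rw [← hcl.closure_eq, mem_closure_iff]
    intro U hU hx
    obtain ⟨n, hn, hmem⟩ := recurrent U hU hx 1
    refine ⟨_, hmem, ?_⟩
    obtain ⟨k, rfl⟩ := Nat.exists_eq_add_of_le' hn
    exact ⟨T^[k] x₀, (Function.iterate_succ_apply' T k x₀).symm⟩
  have hall : ∀ n, T^[n] x₀ ∈ Set.range T := by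
    intro n
    rcases n with _ | n
    · exact hx0
    · exact ⟨T^[n] x₀, (Function.iterate_succ_apply' T n x₀).symm⟩
  intro x
  by_contra hx
  obtain ⟨n, hn⟩ := dense_orbit (Set.range T)ᶜ hcl.isOpen_compl ⟨x, hx⟩
  exact hn (hall n)

lemma no_isolated (x : X) : ¬ IsOpen ({x} : Set X) := by
  intro h
  obtain ⟨m, _, hm⟩ := visits {x} h ⟨x, rfl⟩ 0
  obtain ⟨n, hn, hn'⟩ := visits {x} h ⟨x, rfl⟩ (m + 1)
  have h1 : T^[m] x₀ = T^[n] x₀ := by
    rw [Set.mem_singleton_iff.1 hm, Set.mem_singleton_iff.1 hn']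
  have := injective_orbit h1
  omega

lemma dense_minimal : Dense {x : X | IsMinimalPoint T x} := by
  have hinv : Set.MapsTo T (closure {x : X | IsMinimalPoint T x})
      (closure {x : X | IsMinimalPoint T x}) := by
    intro x hx
    have h : T '' closure {x : X | IsMinimalPoint T x} ⊆
        closure (T '' {x : X | IsMinimalPoint T x}) :=
      image_closure_subset_closure_image continuous_T
    refine closure_mono ?_ (h ⟨x, hx, rfl⟩)
    rintro _ ⟨y, ⟨M, hM, hy⟩, rfl⟩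
    exact ⟨M, hM, hM.1.2.2 hy⟩
  intro x
  by_contra hx
  obtain ⟨n, hn⟩ := dense_orbit (closure {x : X | IsMinimalPoint T x})ᶜ
    isClosed_closure.isOpen_compl ⟨x, hx⟩
  exact hn (iter_mem hinv x₀_limit n)

lemma not_minimal : ¬ IsMinimalSet T (Set.univ : Set X) := by
  intro h
  have hF : Mm 0 = Set.univ := h.2 (Mm 0) (Set.subset_univ _) ⟨q 0, subset_closure ⟨0, rfl⟩⟩
    isClosed_closure (mapsTo_Mm 0)
  have hx : x₀ ∈ F 0 := Mm_subset_F 0 (by rw [hF]; trivial)
  have h1 := hx 0 (by simp [x₀, p₀])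
  have h2 : w 0 = P 0 (0 + 0) := congrFun h1 0
  rw [w_zero] at h2
  simp [P] at h2

/-- No other point starting with `1` is proximal to `x₀`. -/
lemma isolated_fibre (y : X) (hy : y.1.1 0 = true) (hne : y ≠ x₀) :
    ∃ c : ℝ, 0 < c ∧ ∀ n : ℕ, c ≤ dist (T^[n] x₀) (T^[n] y) := by
  have h2 : y.1.2 ≠ 0 := by
    intro h0
    apply hne
    apply Subtype.ext
    refine Prod.ext ?_ h0
    funext i
    show y.1.1 i = w i
    have hmem := Metric.mem_closure_iff.1 y.2 ((1 / 2 : ℝ) ^ (i + 1)) (by positivity)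
    obtain ⟨_, ⟨n, rfl⟩, hn⟩ := hmem
    simp only at hn
    rw [S_iter, Prod.dist_eq] at hn
    have ha := (dist_le_iff _ _ _).1 ((le_max_left _ _).trans hn.le)
    have hb := (le_max_right _ _).trans hn.le
    rw [dist_eq_norm, h0] at hb
    simp only [p₀, zero_add, zero_sub, norm_neg] at hb
    have hd : 2 ^ (i + 1) ∣ n := by
      have := mod_eq_of_norm (n := n) (i := 0) (m := i + 1) (by simpa using hb)
      exact Nat.dvd_of_mod_eq_zero (by simpa using this)
    have ha0 : y.1.1 0 = w (n + 0) := ha 0 (by omega)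
    have hai : y.1.1 i = w (n + i) := ha i (by omega)
    rw [hy, add_zero] at ha0
    rw [hai]
    exact isolation n (i + 1) hd ha0.symm i
      ((Nat.lt_succ_self i).trans Nat.lt_two_pow_self)
  refine ⟨‖y.1.2‖, norm_pos_iff.2 h2, fun n => ?_⟩
  have h3 : dist ((T^[n] x₀ : X) : E).2 ((T^[n] y : X) : E).2 ≤ dist (T^[n] x₀) (T^[n] y) :=
    le_max_right _ _
  refine le_trans (le_of_eq ?_) h3
  rw [T_iter, T_iter, dist_eq_norm]
  simp only [x₀, p₀]
  rw [← norm_neg]
  congr 1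
  ring

lemma dist_le_two (a b : X) : dist a b ≤ Metric.diam (Set.univ : Set X) :=
  Metric.dist_le_diam_of_mem isCompact_univ.isBounded trivial trivial

/-- **Main theorem.** There is a non-minimal M-system which is not Li-Yorke sensitive; it has a
transitive point `x` with a neighbourhood in which no other point is proximal to `x`. -/
theorem result : ∃ (X : Type) (_ : MetricSpace X) (_ : CompactSpace X) (T : X → X),
    Nontrivial X ∧ (∀ x : X, ¬ IsOpen ({x} : Set X)) ∧ Continuous T ∧ Function.Surjective T ∧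
    IsMSystem T ∧ ¬ IsMinimalSet T (Set.univ : Set X) ∧ ¬ LiYorkeSensitive T ∧
    ∃ x : X, Dense (Set.range fun n : ℕ => T^[n] x) ∧ ∃ U ∈ 𝓝 x, ∀ y ∈ U, y ≠ x →
      0 < liminf (fun n : ℕ => dist (T^[n] x) (T^[n] y)) atTop := by
  have hU : {y : X | y.1.1 0 = true} ∈ 𝓝 x₀ := by
    have hcont : Continuous (fun y : X => y.1.1 0) :=
      (continuous_eval 0).comp (continuous_fst.comp continuous_subtype_val)
    have hop : IsOpen ((fun y : X => y.1.1 0) ⁻¹' {true}) := (isOpen_discrete _).preimage hcont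
    exact hop.mem_nhds w_zero
  have hlim : ∀ y ∈ {y : X | y.1.1 0 = true}, y ≠ x₀ →
      0 < liminf (fun n : ℕ => dist (T^[n] x₀) (T^[n] y)) atTop := by
    intro y hy hne
    obtain ⟨c, hc, hcn⟩ := isolated_fibre y hy hne
    refine lt_of_lt_of_le hc ?_
    refine le_liminf_of_le ?_ (Eventually.of_forall hcn)
    exact (isBoundedUnder_of ⟨_, fun n => dist_le_two _ _⟩ :
      IsBoundedUnder (· ≤ ·) atTop _).isCoboundedUnder_ge
  refine ⟨X, inferInstance, inferInstance, T, ?_, no_isolated, continuous_T, surjective_T,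
    ⟨isTransitive_T, dense_minimal⟩, not_minimal, ?_, x₀, ?_, _, hU, hlim⟩
  · refine ⟨⟨x₀, T^[1] x₀, fun h => ?_⟩⟩
    have := injective_orbit (m := 0) (n := 1) h
    omega
  · rintro ⟨δ, hδ, h⟩
    obtain ⟨y, hy, h1, h2⟩ := h x₀ _ hU
    by_cases hne : y = x₀
    · subst hne
      simp only [dist_self, limsup_const] at h2
      linarith
    · have := hlim y hy hne
      linarith
  · intro x
    rw [mem_closure_iff]
    intro U hU hx
    obtain ⟨n, hn⟩ := dense_orbit U hU ⟨x, hx⟩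
    exact ⟨_, hn, n, rfl⟩

end Pool.Agent.Results.MP_6bd6f6_an.Odometer
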